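import Pool.Agent.helper54.UG.Spec

set_option autoImplicit false

namespace Pool.Agent.UG

open Matrix Pool.Agent.H48SL

theorem EXD_pow {n : ℕ} (X : MQ (n + 1)) (h : ∀ i, X i 0 = 0) (i : ℕ) : dn (X ^ i) = dn X ^ i := by
  induction i with
  | zero => rw [pow_zero, pow_zero, dn_one]
  | succ i ih => rw [pow_succ', dn_mul _ _ (fun j => h j.succ), ih, ← pow_succ']

theorem EXD : EXD_stmt := by
  intro n X hX h
  obtain ⟨k, hk⟩ := hX
  have h0 := (kill_iff X).1 h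
  have hk' : dn X ^ k = 0 := by
    rw [← EXD_pow X h0, hk]
    exact map_zero (dnL n)
  refine ⟨⟨k, hk'⟩, ?_, ?_⟩
  · rw [IsNilpotent.exp_eq_sum hk, IsNilpotent.exp_eq_sum hk', ← dnL_apply, map_sum]
    apply Finset.sum_congr rfl
    intro i _
    rw [map_smul, dnL_apply, EXD_pow X h0]
  · have hk1 : X ^ (k + 1) = 0 := by rw [pow_succ, hk, Matrix.zero_mul]
    rw [IsNilpotent.exp_eq_sum hk1, Finset.sum_range_succ', Matrix.add_mulVec]
    have h1 : (∑ i ∈ Finset.range k, (((i + 1).factorial : ℕ) : ℚ)⁻¹ • X ^ (i + 1)) *ᵥ e0 n = 0 := by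
      have e := map_sum (Matrix.mulVec.addMonoidHomLeft (e0 n))
        (fun i : ℕ => (((i + 1).factorial : ℕ) : ℚ)⁻¹ • X ^ (i + 1)) (Finset.range k)
      refine Eq.trans (b := ∑ i ∈ Finset.range k, ((((i + 1).factorial : ℕ) : ℚ)⁻¹ • X ^ (i + 1)) *ᵥ e0 n) e ?_
      apply Finset.sum_eq_zero
      intro i _
      rw [Matrix.smul_mulVec, pow_succ, ← Matrix.mulVec_mulVec, h, Matrix.mulVec_zero, smul_zero]
    rw [h1, zero_add]
    simp

end Pool.Agent.UG
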