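import Pool.Agent.helper54.UG.Spec3

set_option autoImplicit false

namespace Pool.Agent.UG

open Matrix Pool.Agent.H48SL

/-- `B(v, M a)` as a linear form in `a` -/
def SOF_L {n : ℕ} (S M : MQ n) (v : Fin n → ℚ) : (Fin n → ℚ) →ₗ[ℚ] ℚ where
  toFun a := bf S v (M *ᵥ a)
  map_add' x y := by
    unfold bf
    rw [mulVec_add, mulVec_add, dotProduct_add]
  map_smul' c x := by
    unfold bf
    rw [mulVec_smul, mulVec_smul, dotProduct_smul]
    rfl

theorem SOF (hSI2 : SI2_stmt) (hSH1 : SH1_stmt) (hSCM : SCM_stmt) : SOF_stmt := by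
  intro n hn S H hS hdet hO hv hZ
  obtain ⟨v, h, hv0, hvv, hhH, hhv, hhc⟩ := hSH1 n hn S H hS hdet hO hZ hv
  let L : (Fin n → ℚ) →ₗ[ℚ] ℚ × ℚ := (SOF_L S 1 v).prod (SOF_L S (qg h⁻¹) v)
  have h1 := LinearMap.finrank_range_add_finrank_ker L
  have h2 : Module.finrank ℚ (LinearMap.range L) ≤ 2 := by
    refine (Submodule.finrank_le _).trans ?_
    rw [Module.finrank_prod, Module.finrank_self]
  rw [Module.finrank_fin_fun] at h1
  have h3 : ∃ a ∈ LinearMap.ker L, a ∉ Submodule.span ℚ {v} := by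
    by_contra hcon
    push Not at hcon
    have hle : LinearMap.ker L ≤ Submodule.span ℚ {v} := hcon
    have h4 := Submodule.finrank_mono hle
    rw [finrank_span_singleton hv0] at h4
    omega
  obtain ⟨a, ha, hav⟩ := h3
  have ha' : (bf S v ((1 : MQ n) *ᵥ a), bf S v (qg h⁻¹ *ᵥ a)) = (0, 0) := ha
  rw [Prod.mk.injEq, one_mulVec] at ha'
  by_cases haa : bf S a a = 0
  · refine hSI2 n hn S H hS hdet hO hZ v a ?_ hvv ha'.1 haa
    rw [LinearIndependent.pair_iff' hv0]
    intro c hc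
    apply hav
    rw [← hc]
    exact Submodule.smul_mem _ _ (Submodule.mem_span_singleton_self v)
  · exact hSCM n hn S H hS hdet hO hZ v a h hv0 hvv hhH hhv hhc ha'.1 ha'.2 haa

end Pool.Agent.UG
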